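import Pool.Agent.Work.MP_f714fc_ag.Tr.Tower

/-!
# MP_f714fc_ag, truncation module: the tower of an object of the derived category (helper12)
-/

set_option autoImplicit false

open CategoryTheory CategoryTheory.Limits CategoryTheory.Pretriangulated CategoryTheory.Triangulated
open DerivedCategory

namespace Fdim.Tr

universe w v u

variable {A : Type u} [Category.{v} A] [Abelian A] [HasDerivedCategory.{w} A]

/-- The cohomology objects. -/
noncomputable abbrev HH (n : ℤ) (F : DerivedCategory A) : A := (homologyFunctor A n).obj F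

/-- The t-structure. -/
noncomputable abbrev tt : TStructure (DerivedCategory A) := DerivedCategory.TStructure.t

/-- The tower of truncations. -/
noncomputable def towerOf (F : DerivedCategory A) (a : ℤ) [F.IsGE a] :
    Tower (tt (A := A)) a where
  F n := (tt.truncLT (a + n)).obj F
  P n := (tt.truncGELT (a + n) (a + (n + 1 : ℕ))).obj F
  i n := ((tt.triangleLTLTGELT (a + n) (a + (n + 1 : ℕ)) (by push_cast; lia)).obj F).mor₁
  q n := ((tt.triangleLTLTGELT (a + n) (a + (n + 1 : ℕ)) (by push_cast; lia)).obj F).mor₂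
  δ n := ((tt.triangleLTLTGELT (a + n) (a + (n + 1 : ℕ)) (by push_cast; lia)).obj F).mor₃
  dist n := tt.triangleLTLTGELT_distinguished (a + n) (a + (n + 1 : ℕ)) (by push_cast; lia) F
  zero := by
    have : tt.IsGE F (a + (0 : ℕ)) := by
      simpa using (inferInstance : tt.IsGE F a)
    exact tt.isZero_truncLT_obj_of_isGE (a + (0 : ℕ)) F
  le n := tt.isLE_truncLT_obj F (a + n) (a + n - 1) (by lia)
  ge n := inferInstance

theorem isIso_truncLT (F : DerivedCategory A) (n n' : ℤ) (h : n < n') :
    IsIso ((homologyFunctor A n).map ((tt.truncLTι n').app F)) := by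
  have hT := tt.triangleLTGE_distinguished n' F
  have hz : IsZero ((homologyFunctor A n).obj ((tt.truncGE n').obj F)) :=
    isZero_of_isGE _ n' n h
  have hz' : IsZero ((homologyFunctor A (n - 1)).obj ((tt.truncGE n').obj F)) :=
    isZero_of_isGE _ n' (n - 1) (by lia)
  have h1 : Epi ((homologyFunctor A n).map ((tt.triangleLTGE n').obj F).mor₁) := by
    rw [HomologySequence.epi_homologyMap_mor₁_iff _ hT]
    exact hz.eq_zero_of_tgt _
  have h2 : Mono ((homologyFunctor A n).map ((tt.triangleLTGE n').obj F).mor₁) := by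
    rw [HomologySequence.mono_homologyMap_mor₁_iff _ hT (n - 1) n (by lia)]
    exact hz'.eq_zero_of_src _
  exact isIso_of_mono_of_epi ((homologyFunctor A n).map ((tt.triangleLTGE n').obj F).mor₁)

theorem isIso_truncGE (F : DerivedCategory A) (n : ℤ) :
    IsIso ((homologyFunctor A n).map ((tt.truncGEπ n).app F)) := by
  have hT := tt.triangleLTGE_distinguished n F
  have hz : IsZero ((homologyFunctor A n).obj ((tt.truncLT n).obj F)) :=
    isZero_of_isLE _ (n - 1) n (by lia)
  have hz' : IsZero ((homologyFunctor A (n + 1)).obj ((tt.truncLT n).obj F)) :=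
    isZero_of_isLE _ (n - 1) (n + 1) (by lia)
  have h1 : Mono ((homologyFunctor A n).map ((tt.triangleLTGE n).obj F).mor₂) := by
    rw [HomologySequence.mono_homologyMap_mor₂_iff _ hT]
    exact hz.eq_zero_of_src _
  have h2 : Epi ((homologyFunctor A n).map ((tt.triangleLTGE n).obj F).mor₂) := by
    rw [HomologySequence.epi_homologyMap_mor₂_iff _ hT n (n + 1) (by lia)]
    exact hz'.eq_zero_of_tgt _
  exact isIso_of_mono_of_epi ((homologyFunctor A n).map ((tt.triangleLTGE n).obj F).mor₂)

/-- An object concentrated in degree `n`. -/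
theorem exists_iso_single (X : DerivedCategory A) (n : ℤ) [X.IsGE n] [X.IsLE n] :
    Nonempty (X ≅ (singleFunctor A n).obj (HH n X)) := by
  obtain ⟨Y, ⟨e⟩⟩ := exists_iso_singleFunctor_obj_of_isGE_of_isLE X n
  have e2 : HH n X ≅ Y := (homologyFunctor A n).mapIso e ≪≫
    (singleFunctorCompHomologyFunctorIso A n).app Y
  exact ⟨e ≪≫ (singleFunctor A n).mapIso e2.symm⟩

/-- The pieces of the tower. -/
theorem exists_iso_piece (F : DerivedCategory A) (n n' : ℤ) (h : n + 1 = n') :
    Nonempty ((tt.truncGELT n n').obj F ≅ (singleFunctor A n).obj (HH n F)) := by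
  subst h
  have h1 : ((tt.truncGELT n (n + 1)).obj F).IsGE n := inferInstance
  have h2 : ((tt.truncGELT n (n + 1)).obj F).IsLE n := by
    have : tt.IsLE ((tt.truncGELT n (n + 1)).obj F) (n + 1 - 1) := inferInstance
    simpa using this
  obtain ⟨e⟩ := exists_iso_single ((tt.truncGELT n (n + 1)).obj F) n
  have := isIso_truncGE ((tt.truncLT (n + 1)).obj F) n
  have := isIso_truncLT F n (n + 1) (by lia)
  have e2 : HH n ((tt.truncGELT n (n + 1)).obj F) ≅ HH n F :=
    (asIso ((homologyFunctor A n).map ((tt.truncGEπ n).app ((tt.truncLT (n + 1)).obj F)))).symm ≪≫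
      asIso ((homologyFunctor A n).map ((tt.truncLTι (n + 1)).app F))
  exact ⟨e ≪≫ (singleFunctor A n).mapIso e2⟩

end Fdim.Tr
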