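import Pool.Agent.Work.MP_f714fc_ag.Tr.Der

/-!
# MP_f714fc_ag, truncation module: morphisms between shifted objects are Ext groups (helper12)
-/

set_option autoImplicit false

open CategoryTheory CategoryTheory.Limits CategoryTheory.Pretriangulated CategoryTheory.Triangulated
open DerivedCategory

namespace Fdim.Tr

universe w w' v u

variable {A : Type u} [Category.{v} A] [Abelian A] [HasDerivedCategory.{w} A] [HasExt.{w'} A]
variable (k : Type*) [Field k] [Linear k A]

/-- The shift is an equivalence on morphisms. -/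
noncomputable def shiftLin (X Y : DerivedCategory A) (i : ℤ) : (X ⟶ Y) ≃ₗ[k] (X⟦i⟧ ⟶ Y⟦i⟧) :=
  LinearEquiv.ofBijective ((shiftFunctor (DerivedCategory A) i).mapLinearMap k)
    ⟨(shiftFunctor (DerivedCategory A) i).map_injective,
      (shiftFunctor (DerivedCategory A) i).map_surjective⟩

/-- Morphisms between shifted objects of `A`. -/
noncomputable def homExt (X Y : A) (i j l : ℤ) (n : ℕ) (h : (n : ℤ) = l + i - j) :
    ((singleFunctor A i).obj X ⟶ ((singleFunctor A j).obj Y)⟦l⟧) ≃ₗ[k] Abelian.Ext X Y n :=
  (shiftLin k _ _ i).trans ((Linear.homCongr k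
    (((singleFunctors A).shiftIso i 0 i (add_zero i)).app X)
    ((shiftFunctorAdd' (DerivedCategory A) l i (l + i) rfl).symm.app ((singleFunctor A j).obj Y) ≪≫
      (shiftFunctorAdd' (DerivedCategory A) j (n : ℤ) (l + i) (by lia)).app
        ((singleFunctor A j).obj Y) ≪≫
      (shiftFunctor (DerivedCategory A) (n : ℤ)).mapIso
        (((singleFunctors A).shiftIso j 0 j (add_zero j)).app Y))).trans
    (Abelian.Ext.homLinearEquiv (R := k)).symm)

/-- The same without a shift. -/
noncomputable def homExt₀ (X Y : A) (i j : ℤ) (n : ℕ) (h : (n : ℤ) = i - j) :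
    ((singleFunctor A i).obj X ⟶ (singleFunctor A j).obj Y) ≃ₗ[k] Abelian.Ext X Y n :=
  (Linear.homCongr k (Iso.refl _)
    ((shiftFunctorZero (DerivedCategory A) ℤ).symm.app ((singleFunctor A j).obj Y))).trans
    (homExt k X Y i j 0 n (by lia))

end Fdim.Tr
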