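import Mathlib

/-!
# MP_f714fc_ag, truncation module: linear algebra of one step (helper12)
-/

set_option autoImplicit false

namespace Fdim.Tr

open Module

/-- One step of the rank estimate. -/
theorem step_rank {k V W Vp H E : Type*} [Field k] [AddCommGroup V] [Module k V]
    [AddCommGroup W] [Module k W] [AddCommGroup Vp] [Module k Vp] [AddCommGroup H] [Module k H]
    [AddCommGroup E] [Module k E] [FiniteDimensional k W] [FiniteDimensional k H]
    [FiniteDimensional k E] (Ψ : V →ₗ[k] W) (Φ1 : Vp →ₗ[k] V) (Φ2 : Vp →ₗ[k] H)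
    (α : V →ₗ[k] E) (β : H →ₗ[k] E)
    (hex : ∀ f p, α f = β p → ∃ x, Φ1 x = f ∧ Φ2 x = p) (hker : ∀ f, Ψ f = 0 → α f = 0) :
    finrank k (LinearMap.range Ψ) + finrank k H ≤
      finrank k (LinearMap.range ((Ψ ∘ₗ Φ1).prod Φ2)) + finrank k E := by
  have hle : LinearMap.ker Ψ ≤ LinearMap.ker α := fun f hf => hker f hf
  set ᾱ : LinearMap.range Ψ →ₗ[k] E :=
    ((LinearMap.ker Ψ).liftQ α hle) ∘ₗ (Ψ.quotKerEquivRange.symm : _ →ₗ[k] _) with hᾱ
  have hᾱΨ : ∀ f, ᾱ ⟨Ψ f, f, rfl⟩ = α f := by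
    intro f
    have h1 : Ψ.quotKerEquivRange.symm ⟨Ψ f, f, rfl⟩ = (LinearMap.ker Ψ).mkQ f := by
      rw [LinearEquiv.symm_apply_eq]
      rfl
    rw [hᾱ, LinearMap.comp_apply]
    change (LinearMap.ker Ψ).liftQ α hle (Ψ.quotKerEquivRange.symm ⟨Ψ f, f, rfl⟩) = α f
    rw [h1]
    exact (LinearMap.ker Ψ).liftQ_apply α f
  set θ : (LinearMap.range Ψ × H) →ₗ[k] E :=
    ᾱ ∘ₗ LinearMap.fst k _ _ - β ∘ₗ LinearMap.snd k _ _ with hθ
  have h1 : finrank k (LinearMap.range θ) + finrank k (LinearMap.ker θ) =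
      finrank k (LinearMap.range Ψ) + finrank k H := by
    rw [LinearMap.finrank_range_add_finrank_ker, finrank_prod]
  have h2 : finrank k (LinearMap.range θ) ≤ finrank k E := Submodule.finrank_le _
  have h3 : finrank k (LinearMap.ker θ) ≤
      finrank k (LinearMap.range ((Ψ ∘ₗ Φ1).prod Φ2)) := by
    set ι : (LinearMap.range Ψ × H) →ₗ[k] (W × H) :=
      ((LinearMap.range Ψ).subtype).prodMap LinearMap.id with hι
    have hιinj : Function.Injective ι := by
      rintro ⟨a, b⟩ ⟨c, d⟩ h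
      have h4 : (a : W) = c := congrArg Prod.fst h
      have h5 : b = d := congrArg Prod.snd h
      rw [Subtype.ext h4, h5]
    have h4 : (LinearMap.ker θ).map ι ≤ LinearMap.range ((Ψ ∘ₗ Φ1).prod Φ2) := by
      rintro _ ⟨⟨⟨w, f, hf⟩, p⟩, hmem, rfl⟩
      have h5 : α f = β p := by
        have h6 : θ (⟨w, f, hf⟩, p) = 0 := hmem
        have h7 : θ (⟨w, f, hf⟩, p) = ᾱ ⟨w, f, hf⟩ - β p := rfl
        rw [h7, sub_eq_zero] at h6
        subst hf
        rw [← hᾱΨ f]
        exact h6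
      obtain ⟨x, hx1, hx2⟩ := hex f p h5
      refine ⟨x, ?_⟩
      refine Prod.ext ?_ ?_
      · change Ψ (Φ1 x) = w
        rw [hx1, hf]
      · exact hx2
    calc finrank k (LinearMap.ker θ) = finrank k ((LinearMap.ker θ).map ι) :=
          (LinearEquiv.finrank_eq ((LinearMap.ker θ).equivMapOfInjective ι hιinj))
      _ ≤ _ := Submodule.finrank_mono h4
  omega

end Fdim.Tr
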