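import Pool.Agent.Work.MP_f714fc_ag.Tr.Hom

/-!
# MP_f714fc_ag, truncation module: the inequalities (helper12)
-/

set_option autoImplicit false

open CategoryTheory CategoryTheory.Limits CategoryTheory.Pretriangulated CategoryTheory.Triangulated
open DerivedCategory Module Finset

namespace Fdim.Tr

universe w w' v u

section Tower

variable {C : Type u} [Category.{v} C] [HasZeroObject C] [HasShift C ℤ] [Preadditive C]
  [∀ n : ℤ, (shiftFunctor C n).Additive] [Pretriangulated C]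
variable {t : TStructure C} {a : ℤ} (X Y : Tower t a)
variable (k : Type*) [Field k] [Linear k C]

theorem Tower.nil_smul (n : ℕ) (c : k) (f : X.F n ⟶ Y.F n) (hf : X.Nil Y k n f) :
    X.Nil Y k n (c • f) := by
  induction n with
  | zero => trivial
  | succ n ih =>
    refine ⟨?_, ?_⟩
    · rw [map_smul, hf.1, smul_zero]
    · rw [map_smul]
      exact ih _ hf.2

theorem Tower.gr_unique (n : ℕ) {p : X.P n ⟶ Y.P n} (hp : X.q n ≫ p = 0) : p = 0 :=
  (X.orth Y n).gr_unique hp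

theorem Tower.res_unique (n : ℕ) {f : X.F n ⟶ Y.F n} (hf : f ≫ Y.i n = 0) : f = 0 :=
  (X.orth Y n).res_unique hf

theorem Tower.grL_id (n : ℕ) : X.grL X k n (𝟙 _) = 𝟙 _ := by
  rw [← sub_eq_zero]
  refine X.gr_unique X n ?_
  have h1 := X.comp_grL X k n (𝟙 _)
  rw [Preadditive.comp_sub, h1, Category.id_comp, Category.comp_id, sub_self]

theorem Tower.resL_id (n : ℕ) : X.resL X k n (𝟙 _) = 𝟙 _ := by
  rw [← sub_eq_zero]
  refine X.res_unique X n ?_
  have h1 := X.resL_comp X k n (𝟙 _)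
  rw [Preadditive.sub_comp, h1, Category.id_comp, Category.comp_id, sub_self]

theorem Tower.nil_id (n : ℕ) (h : X.Nil X k n (𝟙 _)) : IsZero (X.F n) := by
  induction n with
  | zero => exact X.zero
  | succ n ih =>
    have h1 : IsZero (X.P n) := by
      rw [IsZero.iff_id_eq_zero, ← X.grL_id k n]
      exact h.1
    have h2 : IsZero (X.F n) := by
      refine ih ?_
      have h3 := h.2
      rw [X.resL_id k n] at h3
      exact h3
    have h3 : X.i n = 0 := h2.eq_zero_of_src _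
    have h4 : X.q n = 0 := h1.eq_zero_of_tgt _
    exact ((X.tri n).isZero₂_iff (X.dist n)).mpr ⟨h3, h4⟩

/-- If the endomorphism ring is one-dimensional, nonzero endomorphisms have nonzero pieces. -/
theorem Tower.nil_of_finrank_one (n : ℕ) (h : finrank k (X.F n ⟶ X.F n) = 1)
    (f : X.F n ⟶ X.F n) (hf : X.Nil X k n f) : f = 0 := by
  by_contra hf0
  obtain ⟨c, hc⟩ := (finrank_eq_one_iff_of_nonzero' f hf0).mp h (𝟙 _)
  have h1 : X.Nil X k n (𝟙 _) := by
    rw [← hc]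
    exact X.nil_smul X k n c f hf
  exact hf0 ((X.nil_id k n h1).eq_of_src f 0)

end Tower

variable {A : Type u} [Category.{v} A] [Abelian A] [HasDerivedCategory.{w} A] [HasExt.{w'} A]
variable (k : Type*) [Field k] [Linear k A]

theorem piece_iso (F : DerivedCategory A) (a : ℤ) [F.IsGE a] (n : ℕ) {B : A}
    (eB : Nonempty (HH (a + n) F ≅ B)) :
    Nonempty ((towerOf F a).P n ≅ (singleFunctor A (a + n)).obj B) := by
  obtain ⟨e⟩ := eB
  obtain ⟨e'⟩ := exists_iso_piece F (a + n) (a + (n + 1 : ℕ)) (by push_cast; lia)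
  exact ⟨e' ≪≫ (singleFunctor A (a + n)).mapIso e⟩

theorem piece_hom (F G : DerivedCategory A) (a : ℤ) [F.IsGE a] [G.IsGE a] (n m : ℕ) (l : ℤ)
    (p : ℕ) (hp : (p : ℤ) = l + n - m) {B B' : A} (eB : Nonempty (HH (a + n) F ≅ B))
    (eB' : Nonempty (HH (a + m) G ≅ B')) :
    Nonempty (((towerOf F a).P n ⟶ ((towerOf G a).P m)⟦l⟧) ≃ₗ[k] Abelian.Ext B B' p) := by
  obtain ⟨e⟩ := piece_iso F a n eB
  obtain ⟨e'⟩ := piece_iso G a m eB'
  exact ⟨(Linear.homCongr k e ((shiftFunctor (DerivedCategory A) l).mapIso e')).trans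
    (homExt k B B' (a + n) (a + m) l p (by lia))⟩

theorem piece_hom₀ (F G : DerivedCategory A) (a : ℤ) [F.IsGE a] [G.IsGE a] (n m : ℕ)
    (p : ℕ) (hp : (p : ℤ) = n - m) {B B' : A} (eB : Nonempty (HH (a + n) F ≅ B))
    (eB' : Nonempty (HH (a + m) G ≅ B')) :
    Nonempty (((towerOf F a).P n ⟶ (towerOf G a).P m) ≃ₗ[k] Abelian.Ext B B' p) := by
  obtain ⟨e⟩ := piece_iso F a n eB
  obtain ⟨e'⟩ := piece_iso G a m eB'
  exact ⟨(Linear.homCongr k e e').trans (homExt₀ k B B' (a + n) (a + m) p (by lia))⟩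

theorem top_iso (F : DerivedCategory A) (a : ℤ) [F.IsGE a] (N : ℕ) (h : F.IsLE (a + N - 1)) :
    Nonempty ((towerOf F a).F N ≅ F) := by
  have h1 : IsIso ((tt.truncLTι (a + N)).app F) := by
    rw [← tt.isLE_iff_isIso_truncLTι_app (a + N - 1) (a + N) (by lia)]
    exact h
  exact ⟨@asIso _ _ _ _ _ h1⟩

/-- The two statements for a pair of objects. -/
theorem pair_main (F G : DerivedCategory A) (a : ℤ) [F.IsGE a] [G.IsGE a] (N : ℕ)
    (hF : F.IsLE (a + N - 1)) (hG : G.IsLE (a + N - 1)) (B B' : ℕ → A)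
    (eB : ∀ n : ℕ, Nonempty (HH (a + n) F ≅ B n)) (eB' : ∀ n : ℕ, Nonempty (HH (a + n) G ≅ B' n))
    (h3 : ∀ n m p, 3 ≤ p → Subsingleton (Abelian.Ext (B n) (B' m) p))
    (hf0 : ∀ n, FiniteDimensional k (Abelian.Ext (B n) (B' n) 0))
    (hf2 : ∀ n, FiniteDimensional k (Abelian.Ext (B (n + 1)) (B' n) 2))
    (hf : FiniteDimensional k (F ⟶ G)) :
    ∑ n ∈ range N, finrank k (Abelian.Ext (B n) (B' n) 0) ≤ finrank k (F ⟶ G) +
      ∑ n ∈ range (N - 1), finrank k (Abelian.Ext (B (n + 1)) (B' n) 2) ∧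
    ((∀ f, (towerOf F a).Nil (towerOf G a) k N f → f = 0) →
      ∀ m, m + 1 < N → Subsingleton (Abelian.Ext (B (m + 1)) (B' m) 1)) := by
  have hv : ∀ i j, j + 2 ≤ i → ∀ f : (towerOf F a).P i ⟶ ((towerOf G a).P j)⟦(1 : ℤ)⟧, f = 0 := by
    intro i j hij f
    obtain ⟨e⟩ := piece_hom k F G a i j 1 (1 + i - j) (by push_cast [show j ≤ 1 + i by omega]; rfl)
      (eB i) (eB' j)
    have := h3 i j (1 + i - j) (by omega)
    exact e.injective (Subsingleton.elim _ _)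
  have e0 : ∀ n, Nonempty (((towerOf F a).P n ⟶ (towerOf G a).P n) ≃ₗ[k]
      Abelian.Ext (B n) (B' n) 0) := fun n =>
    piece_hom₀ k F G a n n 0 (by simp) (eB n) (eB' n)
  have e2 : ∀ n, Nonempty (((towerOf F a).P (n + 1) ⟶ ((towerOf G a).P n)⟦(1 : ℤ)⟧) ≃ₗ[k]
      Abelian.Ext (B (n + 1)) (B' n) 2) := fun n =>
    piece_hom k F G a (n + 1) n 1 2 (by push_cast; ring) (eB (n + 1)) (eB' n)
  obtain ⟨eF⟩ := top_iso F a N hF
  obtain ⟨eG⟩ := top_iso G a N hG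
  have eFG : ((towerOf F a).F N ⟶ (towerOf G a).F N) ≃ₗ[k] (F ⟶ G) := Linear.homCongr k eF eG
  constructor
  · obtain ⟨W, _, _, _, Ψ, -, hsum⟩ := (towerOf F a).main (towerOf G a) k hv
      (fun n => Module.Finite.equiv (e0 n).some.symm)
      (fun n => Module.Finite.equiv (e2 n).some.symm) N
    have h4 : finrank k (LinearMap.range Ψ) ≤ finrank k (F ⟶ G) := by
      have : FiniteDimensional k ((towerOf F a).F N ⟶ (towerOf G a).F N) :=
        Module.Finite.equiv eFG.symm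
      rw [← eFG.finrank_eq]
      exact LinearMap.finrank_range_le Ψ
    have h5 : ∑ n ∈ range N, finrank k ((towerOf F a).P n ⟶ (towerOf G a).P n) =
        ∑ n ∈ range N, finrank k (Abelian.Ext (B n) (B' n) 0) :=
      Finset.sum_congr rfl fun n _ => (e0 n).some.finrank_eq
    have h6 : ∑ n ∈ range (N - 1),
        finrank k ((towerOf F a).P (n + 1) ⟶ ((towerOf G a).P n)⟦(1 : ℤ)⟧) =
        ∑ n ∈ range (N - 1), finrank k (Abelian.Ext (B (n + 1)) (B' n) 2) :=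
      Finset.sum_congr rfl fun n _ => (e2 n).some.finrank_eq
    rw [h5, h6] at hsum
    omega
  · intro hnil m hm
    obtain ⟨e1⟩ := piece_hom₀ k F G a (m + 1) m 1 (by push_cast; ring) (eB (m + 1)) (eB' m)
    have h7 := (towerOf F a).e1_zero (towerOf G a) k hv N hnil m hm
    refine ⟨fun x y => e1.symm.injective ?_⟩
    rw [h7 (e1.symm x), h7 (e1.symm y)]

/-- The truncation inequalities for an object `F` with `Hom(F,F) = k` and `Hom(F,F⟦1⟧) = 0`. -/
theorem trunc_main (F : DerivedCategory A) (a : ℤ) (N : ℕ) (hFa : F.IsGE a)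
    (hFN : F.IsLE (a + N - 1))
    (h3 : ∀ (i j : ℤ) (p : ℕ), 3 ≤ p → Subsingleton (Abelian.Ext (HH i F) (HH j F) p))
    (hf0 : ∀ i j : ℤ, FiniteDimensional k (Abelian.Ext (HH i F) (HH j F) 0))
    (hf2 : ∀ i j : ℤ, FiniteDimensional k (Abelian.Ext (HH i F) (HH j F) 2))
    (h0 : finrank k (F ⟶ F) = 1) (h1 : Subsingleton (F ⟶ F⟦(1 : ℤ)⟧)) :
    (∀ n : ℕ, n < N → Subsingleton (Abelian.Ext (HH (a + n) F) (HH (a + n) F) 1)) ∧
    (∀ n : ℕ, n + 1 < N → Subsingleton (Abelian.Ext (HH (a + (n + 1 : ℕ)) F) (HH (a + n) F) 1)) ∧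
    ∑ n ∈ range N, finrank k (Abelian.Ext (HH (a + n) F) (HH (a + n) F) 0) ≤
      1 + ∑ n ∈ range (N - 1),
        finrank k (Abelian.Ext (HH (a + (n + 1 : ℕ)) F) (HH (a + n) F) 2) ∧
    ∑ n ∈ range (N - 1), finrank k (Abelian.Ext (HH (a + n) F) (HH (a + (n + 1 : ℕ)) F) 0) ≤
      ∑ n ∈ range N, finrank k (Abelian.Ext (HH (a + n) F) (HH (a + n) F) 2) := by
  have hfF : FiniteDimensional k (F ⟶ F) := Module.finite_of_finrank_eq_succ h0
  obtain ⟨hA1, hA2⟩ := pair_main k F F a N hFN hFN (fun n => HH (a + n) F) (fun n => HH (a + n) F)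
    (fun n => ⟨Iso.refl _⟩) (fun n => ⟨Iso.refl _⟩) (fun n m p hp => h3 _ _ p hp)
    (fun n => hf0 _ _) (fun n => hf2 _ _) hfF
  have hnil : ∀ f, (towerOf F a).Nil (towerOf F a) k N f → f = 0 := by
    obtain ⟨eF⟩ := top_iso F a N hFN
    refine (towerOf F a).nil_of_finrank_one k N ?_
    rw [(Linear.homCongr k eF eF).finrank_eq, h0]
  -- the pair `F`, `F⟦1⟧`, starting at `a - 1`
  have hF' : F.IsGE (a - 1) := tt.isGE_of_ge F (a - 1) a (by lia)
  have hG' : (F⟦(1 : ℤ)⟧).IsGE (a - 1) := tt.isGE_shift F a 1 (a - 1) (by lia)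
  have hFN' : F.IsLE (a - 1 + (N + 1 : ℕ) - 1) := by
    have h : a - 1 + ((N + 1 : ℕ) : ℤ) - 1 = a + N - 1 := by push_cast; lia
    rw [h]
    exact hFN
  have hGN' : (F⟦(1 : ℤ)⟧).IsLE (a - 1 + (N + 1 : ℕ) - 1) := by
    have h := tt.isLE_shift F (a + N - 1) 1 (a + N - 2) (by lia)
    exact tt.isLE_of_le _ (a + N - 2) _ (by push_cast; lia)
  have hshift : ∀ j : ℤ, Nonempty (HH j (F⟦(1 : ℤ)⟧) ≅ HH (j + 1) F) := fun j =>
    ⟨((homologyFunctor A 0).shiftIso 1 j (j + 1) (by lia)).app F⟩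
  have hfG : FiniteDimensional k (F ⟶ F⟦(1 : ℤ)⟧) := inferInstance
  obtain ⟨hB1, hB2⟩ := pair_main k F (F⟦(1 : ℤ)⟧) (a - 1) (N + 1) hFN' hGN'
    (fun n => HH (a - 1 + n) F) (fun n => HH (a - 1 + n + 1) F)
    (fun n => ⟨Iso.refl _⟩) (fun n => hshift _) (fun n m p hp => h3 _ _ p hp)
    (fun n => hf0 _ _) (fun n => hf2 _ _) hfG
  have hnil' : ∀ f, (towerOf F (a - 1)).Nil (towerOf (F⟦(1 : ℤ)⟧) (a - 1)) k (N + 1) f →
      f = 0 := by
    intro f _
    obtain ⟨eF⟩ := top_iso F (a - 1) (N + 1) hFN'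
    obtain ⟨eG⟩ := top_iso (F⟦(1 : ℤ)⟧) (a - 1) (N + 1) hGN'
    exact (Linear.homCongr k eF eG).injective (Subsingleton.elim _ _)
  have hidx : ∀ n : ℕ, a - 1 + ((n + 1 : ℕ) : ℤ) = a + n := fun n => by push_cast; lia
  have hidx' : ∀ n : ℕ, a - 1 + (n : ℤ) + 1 = a + n := fun n => by lia
  refine ⟨?_, fun n hn => hA2 hnil n hn, ?_, ?_⟩
  · intro n hn
    have h4 := hB2 hnil' n (by omega)
    simp only [hidx, hidx'] at h4
    exact h4
  · refine hA1.trans (le_of_eq ?_)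
    rw [h0]
  · have h5 : finrank k (F ⟶ F⟦(1 : ℤ)⟧) = 0 := finrank_zero_of_subsingleton
    rw [h5, zero_add, Finset.sum_range_succ'] at hB1
    have h6 : N + 1 - 1 = N := by omega
    rw [h6] at hB1
    have e1 : ∀ n : ℕ, finrank k (Abelian.Ext (HH (a - 1 + ((n + 1 : ℕ) : ℤ)) F)
        (HH (a - 1 + ((n + 1 : ℕ) : ℤ) + 1) F) 0) =
        finrank k (Abelian.Ext (HH (a + n) F) (HH (a + (n + 1 : ℕ)) F) 0) := by
      intro n
      rw [hidx n, show a + (n : ℤ) + 1 = a + (n + 1 : ℕ) by push_cast; ring]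
    have e2 : ∀ n : ℕ, finrank k (Abelian.Ext (HH (a - 1 + ((n + 1 : ℕ) : ℤ)) F)
        (HH (a - 1 + (n : ℤ) + 1) F) 2) =
        finrank k (Abelian.Ext (HH (a + n) F) (HH (a + n) F) 2) := by
      intro n
      rw [hidx n, hidx' n]
    rw [Finset.sum_congr rfl fun n _ => e1 n, Finset.sum_congr rfl fun n _ => e2 n] at hB1
    have h7 : ∑ n ∈ range (N - 1), finrank k (Abelian.Ext (HH (a + n) F)
        (HH (a + (n + 1 : ℕ)) F) 0) ≤
        ∑ n ∈ range N, finrank k (Abelian.Ext (HH (a + n) F) (HH (a + (n + 1 : ℕ)) F) 0) :=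
      Finset.sum_le_sum_of_subset (Finset.range_mono (Nat.sub_le N 1))
    omega

end Fdim.Tr
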