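import Mathlib

/-!
# MP_f714fc_ag, truncation module: morphisms of truncation triangles (helper12)

For distinguished triangles `T`, `T'` without nonzero morphisms from `T.obj₁` and `T.obj₁⟦1⟧` to
`T'.obj₃`, a morphism `T.obj₂ ⟶ T'.obj₂` induces unique morphisms `res` on the first and `gr` on
the third objects.
-/

set_option autoImplicit false

open CategoryTheory CategoryTheory.Limits CategoryTheory.Pretriangulated

namespace Fdim.Tr

universe v u

variable {C : Type u} [Category.{v} C] [HasZeroObject C] [HasShift C ℤ] [Preadditive C]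
  [∀ n : ℤ, (shiftFunctor C n).Additive] [Pretriangulated C]

/-- There are no morphisms from `T.obj₁` and its shift to `T'.obj₃`. -/
structure Orth (T T' : Triangle C) : Prop where
  dist : T ∈ distTriang C
  dist' : T' ∈ distTriang C
  a : ∀ u : T.obj₁ ⟶ T'.obj₃, u = 0
  b : ∀ u : T.obj₁⟦(1 : ℤ)⟧ ⟶ T'.obj₃, u = 0

variable {T T' : Triangle C}

theorem Orth.exists_res (h : Orth T T') (f : T.obj₂ ⟶ T'.obj₂) :
    ∃ f' : T.obj₁ ⟶ T'.obj₁, f' ≫ T'.mor₁ = T.mor₁ ≫ f := by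
  obtain ⟨g, hg⟩ := Triangle.coyoneda_exact₂ T' h.dist' (T.mor₁ ≫ f) (h.a _)
  exact ⟨g, hg.symm⟩

theorem Orth.res_unique (h : Orth T T') {f' : T.obj₁ ⟶ T'.obj₁} (hf : f' ≫ T'.mor₁ = 0) :
    f' = 0 := by
  have h1 : f'⟦(1 : ℤ)⟧' ≫ T'.mor₁⟦(1 : ℤ)⟧' = 0 := by
    rw [← Functor.map_comp, hf, Functor.map_zero]
  obtain ⟨g, hg⟩ := Triangle.coyoneda_exact₁ T' h.dist' (f'⟦(1 : ℤ)⟧') h1
  rw [h.b g, zero_comp] at hg
  apply (shiftFunctor C (1 : ℤ)).map_injective
  rw [hg, Functor.map_zero]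

theorem Orth.exists_gr (h : Orth T T') (f : T.obj₂ ⟶ T'.obj₂) :
    ∃ p : T.obj₃ ⟶ T'.obj₃, T.mor₂ ≫ p = f ≫ T'.mor₂ := by
  have h1 : T.mor₁ ≫ f ≫ T'.mor₂ = 0 := h.a _
  obtain ⟨g, hg⟩ := Triangle.yoneda_exact₂ T h.dist (f ≫ T'.mor₂) h1
  exact ⟨g, hg.symm⟩

theorem Orth.gr_unique (h : Orth T T') {p : T.obj₃ ⟶ T'.obj₃} (hp : T.mor₂ ≫ p = 0) :
    p = 0 := by
  obtain ⟨g, hg⟩ := Triangle.yoneda_exact₃ T h.dist p hp
  rw [h.b g, comp_zero] at hg
  exact hg

variable (k : Type*) [Field k] [Linear k C]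

/-- The induced morphism on the first objects. -/
noncomputable def Orth.res (h : Orth T T') : (T.obj₂ ⟶ T'.obj₂) →ₗ[k] (T.obj₁ ⟶ T'.obj₁) where
  toFun f := (h.exists_res f).choose
  map_add' f g := by
    have h1 := (h.exists_res f).choose_spec
    have h2 := (h.exists_res g).choose_spec
    have h3 := (h.exists_res (f + g)).choose_spec
    rw [← sub_eq_zero]
    refine h.res_unique ?_
    rw [Preadditive.sub_comp, Preadditive.add_comp, h1, h2, h3, Preadditive.comp_add, sub_self]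
  map_smul' c f := by
    have h1 := (h.exists_res f).choose_spec
    have h3 := (h.exists_res (c • f)).choose_spec
    rw [RingHom.id_apply, ← sub_eq_zero]
    refine h.res_unique ?_
    rw [Preadditive.sub_comp, Linear.smul_comp, h1, h3, Linear.comp_smul, sub_self]

theorem Orth.res_comp (h : Orth T T') (f : T.obj₂ ⟶ T'.obj₂) :
    h.res k f ≫ T'.mor₁ = T.mor₁ ≫ f := (h.exists_res f).choose_spec

/-- The induced morphism on the third objects. -/
noncomputable def Orth.gr (h : Orth T T') : (T.obj₂ ⟶ T'.obj₂) →ₗ[k] (T.obj₃ ⟶ T'.obj₃) where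
  toFun f := (h.exists_gr f).choose
  map_add' f g := by
    have h1 := (h.exists_gr f).choose_spec
    have h2 := (h.exists_gr g).choose_spec
    have h3 := (h.exists_gr (f + g)).choose_spec
    rw [← sub_eq_zero]
    refine h.gr_unique ?_
    rw [Preadditive.comp_sub, Preadditive.comp_add, h1, h2, h3, Preadditive.add_comp, sub_self]
  map_smul' c f := by
    have h1 := (h.exists_gr f).choose_spec
    have h3 := (h.exists_gr (c • f)).choose_spec
    rw [RingHom.id_apply, ← sub_eq_zero]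
    refine h.gr_unique ?_
    rw [Preadditive.comp_sub, Linear.comp_smul, h1, h3, Linear.smul_comp, sub_self]

theorem Orth.comp_gr (h : Orth T T') (f : T.obj₂ ⟶ T'.obj₂) :
    T.mor₂ ≫ h.gr k f = f ≫ T'.mor₂ := (h.exists_gr f).choose_spec

/-- The lifting criterion. -/
theorem Orth.exists_lift (h : Orth T T') (f' : T.obj₁ ⟶ T'.obj₁) (p : T.obj₃ ⟶ T'.obj₃)
    (hfp : T.mor₃ ≫ f'⟦(1 : ℤ)⟧' = p ≫ T'.mor₃) :
    ∃ f : T.obj₂ ⟶ T'.obj₂, h.res k f = f' ∧ h.gr k f = p := by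
  obtain ⟨f, hf1, hf2⟩ := complete_distinguished_triangle_morphism₂ T T' h.dist h.dist' f' p hfp
  refine ⟨f, ?_, ?_⟩
  · rw [← sub_eq_zero]
    refine h.res_unique ?_
    rw [Preadditive.sub_comp, h.res_comp k, hf1, sub_self]
  · rw [← sub_eq_zero]
    refine h.gr_unique ?_
    rw [Preadditive.comp_sub, h.comp_gr k, hf2, sub_self]

/-- A morphism which vanishes on the first and third objects: it is enough to produce such
morphisms from `T.obj₃ ⟶ T'.obj₁`. -/
theorem Orth.through (h : Orth T T') (g : T.obj₃ ⟶ T'.obj₁) :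
    h.res k (T.mor₂ ≫ g ≫ T'.mor₁) = 0 ∧ h.gr k (T.mor₂ ≫ g ≫ T'.mor₁) = 0 := by
  constructor
  · refine h.res_unique ?_
    rw [h.res_comp k, comp_distTriang_mor_zero₁₂_assoc T h.dist, zero_comp]
  · refine h.gr_unique ?_
    rw [h.comp_gr k]
    simp only [Category.assoc]
    rw [comp_distTriang_mor_zero₁₂ T' h.dist', comp_zero, comp_zero]

/-- If `res` and `gr` are jointly injective then every morphism `T.obj₃ ⟶ T'.obj₁` factors through
`T.mor₃`, provided there are no morphisms `T.obj₂⟦1⟧ ⟶ T'.obj₃`. -/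
theorem Orth.factor (h : Orth T T') (hc : ∀ u : T.obj₂⟦(1 : ℤ)⟧ ⟶ T'.obj₃, u = 0)
    (hinj : ∀ f, h.res k f = 0 → h.gr k f = 0 → f = 0) (g : T.obj₃ ⟶ T'.obj₁) :
    ∃ w : T.obj₁⟦(1 : ℤ)⟧ ⟶ T'.obj₁, g = T.mor₃ ≫ w := by
  obtain ⟨h1, h2⟩ := h.through k g
  have h3 := hinj _ h1 h2
  have h4 : T.mor₂ ≫ g = 0 := by
    have h5 : (T.mor₂ ≫ g)⟦(1 : ℤ)⟧' ≫ T'.mor₁⟦(1 : ℤ)⟧' = 0 := by
      rw [← Functor.map_comp, Category.assoc, h3, Functor.map_zero]
    obtain ⟨u, hu⟩ := Triangle.coyoneda_exact₁ T' h.dist' ((T.mor₂ ≫ g)⟦(1 : ℤ)⟧') h5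
    rw [hc u, zero_comp] at hu
    apply (shiftFunctor C (1 : ℤ)).map_injective
    rw [hu, Functor.map_zero]
  exact Triangle.yoneda_exact₃ T h.dist g h4

end Fdim.Tr
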