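import Pool.Agent.Work.MP_f714fc_ag.Tr.Lin
import Pool.Agent.Work.MP_f714fc_ag.Tr.Step

/-!
# MP_f714fc_ag, truncation module: towers (helper12)

A tower is the sequence of truncations of a bounded below object, with the pieces `P n`.
-/

set_option autoImplicit false

open CategoryTheory CategoryTheory.Limits CategoryTheory.Pretriangulated CategoryTheory.Triangulated
open Module Finset

namespace Fdim.Tr

universe v u

variable {C : Type u} [Category.{v} C] [HasZeroObject C] [HasShift C ℤ] [Preadditive C]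
  [∀ n : ℤ, (shiftFunctor C n).Additive] [Pretriangulated C]

/-- The truncations of an object which is `≥ a`. -/
structure Tower (t : TStructure C) (a : ℤ) where
  F : ℕ → C
  P : ℕ → C
  i : ∀ n, F n ⟶ F (n + 1)
  q : ∀ n, F (n + 1) ⟶ P n
  δ : ∀ n, P n ⟶ (F n)⟦(1 : ℤ)⟧
  dist : ∀ n, Triangle.mk (i n) (q n) (δ n) ∈ distTriang C
  zero : IsZero (F 0)
  le : ∀ n : ℕ, t.IsLE (F n) (a + n - 1)
  ge : ∀ n : ℕ, t.IsGE (P n) (a + n)

variable {t : TStructure C} {a : ℤ} (X Y : Tower t a)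

/-- The triangles of a tower. -/
abbrev Tower.tri (X : Tower t a) (n : ℕ) : Triangle C := Triangle.mk (X.i n) (X.q n) (X.δ n)

theorem Tower.orth (n : ℕ) : Orth (X.tri n) (Y.tri n) where
  dist := X.dist n
  dist' := Y.dist n
  a u := t.zero_of_isLE_of_isGE u (a + n - 1) (a + n) (by lia) (X.le n) (Y.ge n)
  b u := t.zero_of_isLE_of_isGE u (a + n - 2) (a + n) (by lia)
    (by
      have := X.le n
      exact t.isLE_shift (X.F n) (a + n - 1) 1 (a + n - 2) (by lia)) (Y.ge n)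

theorem Tower.orth_c (n : ℕ) (u : (X.F (n + 1))⟦(1 : ℤ)⟧ ⟶ Y.P n) : u = 0 :=
  t.zero_of_isLE_of_isGE u (a + n - 1) (a + n) (by lia)
    (by
      have := X.le (n + 1)
      exact t.isLE_shift (X.F (n + 1)) (a + (n + 1 : ℕ) - 1) 1 (a + n - 1) (by push_cast; lia))
    (Y.ge n)

variable (k : Type*) [Field k] [Linear k C]

/-- The restriction to the lower level. -/
noncomputable def Tower.resL (n : ℕ) : (X.F (n + 1) ⟶ Y.F (n + 1)) →ₗ[k] (X.F n ⟶ Y.F n) :=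
  (X.orth Y n).res k

/-- The graded piece. -/
noncomputable def Tower.grL (n : ℕ) : (X.F (n + 1) ⟶ Y.F (n + 1)) →ₗ[k] (X.P n ⟶ Y.P n) :=
  (X.orth Y n).gr k

theorem Tower.comp_grL (n : ℕ) (f : X.F (n + 1) ⟶ Y.F (n + 1)) :
    X.q n ≫ X.grL Y k n f = f ≫ Y.q n := (X.orth Y n).comp_gr k f

theorem Tower.resL_comp (n : ℕ) (f : X.F (n + 1) ⟶ Y.F (n + 1)) :
    X.resL Y k n f ≫ Y.i n = X.i n ≫ f := (X.orth Y n).res_comp k f

theorem Tower.exists_lift (n : ℕ) (f' : X.F n ⟶ Y.F n) (p : X.P n ⟶ Y.P n)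
    (h : X.δ n ≫ f'⟦(1 : ℤ)⟧' = p ≫ Y.δ n) :
    ∃ f : X.F (n + 1) ⟶ Y.F (n + 1), X.resL Y k n f = f' ∧ X.grL Y k n f = p :=
  (X.orth Y n).exists_lift k f' p h

theorem Tower.factor (n : ℕ) (hinj : ∀ f, X.resL Y k n f = 0 → X.grL Y k n f = 0 → f = 0)
    (g : X.P n ⟶ Y.F n) : ∃ w : (X.F n)⟦(1 : ℤ)⟧ ⟶ Y.F n, g = X.δ n ≫ w :=
  (X.orth Y n).factor k (X.orth_c Y n) hinj g

/-- All the graded pieces of `f` vanish. -/
def Tower.Nil : ∀ n : ℕ, (X.F n ⟶ Y.F n) → Prop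
  | 0, _ => True
  | n + 1, f => X.grL Y k n f = 0 ∧ Tower.Nil n (X.resL Y k n f)

theorem Tower.nil_zero (n : ℕ) : X.Nil Y k n 0 := by
  induction n with
  | zero => trivial
  | succ n ih =>
    refine ⟨map_zero _, ?_⟩
    rw [map_zero]
    exact ih

/-- Exactness at the shift of the second object. -/
theorem exact₂_shift {T : Triangle C} (hT : T ∈ distTriang C) {Z : C}
    (f : Z ⟶ T.obj₂⟦(1 : ℤ)⟧) (hf : f ≫ T.mor₂⟦(1 : ℤ)⟧' = 0) :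
    ∃ g : Z ⟶ T.obj₁⟦(1 : ℤ)⟧, f = g ≫ T.mor₁⟦(1 : ℤ)⟧' := by
  obtain ⟨g, hg⟩ := Triangle.coyoneda_exact₁ T.rotate (rot_of_distTriang T hT) f hf
  refine ⟨-g, ?_⟩
  rw [hg]
  exact (Preadditive.comp_neg _ _).trans (Preadditive.neg_comp _ _).symm

theorem Tower.exact (n : ℕ) {Z : C} (f : Z ⟶ (Y.F (n + 1))⟦(1 : ℤ)⟧)
    (hf : f ≫ (Y.q n)⟦(1 : ℤ)⟧' = 0) :
    ∃ g : Z ⟶ (Y.F n)⟦(1 : ℤ)⟧, f = g ≫ (Y.i n)⟦(1 : ℤ)⟧' :=
  exact₂_shift (Y.dist n) f hf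

/-- No morphisms to the lower part of the tower. -/
theorem Tower.van (h3 : ∀ i j, j + 2 ≤ i → ∀ f : X.P i ⟶ (Y.P j)⟦(1 : ℤ)⟧, f = 0) (m : ℕ)
    (m' : ℕ) (hm : m' ≤ m) (f : X.P (m + 1) ⟶ (Y.F m')⟦(1 : ℤ)⟧) : f = 0 := by
  induction m' with
  | zero =>
    have h1 : IsZero ((Y.F 0)⟦(1 : ℤ)⟧) := (shiftFunctor C (1 : ℤ)).map_isZero Y.zero
    exact h1.eq_zero_of_tgt f
  | succ m' ih =>
    have h1 : f ≫ (Y.q m')⟦(1 : ℤ)⟧' = 0 := h3 (m + 1) m' (by omega) _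
    obtain ⟨g, hg⟩ := Y.exact m' f h1
    rw [hg, ih (by omega) g]
    exact zero_comp

/-- The obstruction map vanishes on morphisms without graded pieces. -/
theorem Tower.obstr (h3 : ∀ i j, j + 2 ≤ i → ∀ f : X.P i ⟶ (Y.P j)⟦(1 : ℤ)⟧, f = 0) (n : ℕ)
    (f : X.F n ⟶ Y.F n) (hf : X.Nil Y k n f) : X.δ n ≫ f⟦(1 : ℤ)⟧' = 0 := by
  cases n with
  | zero =>
    have h1 : IsZero ((Y.F 0)⟦(1 : ℤ)⟧) := (shiftFunctor C (1 : ℤ)).map_isZero Y.zero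
    exact h1.eq_zero_of_tgt _
  | succ m =>
    have h1 : (X.δ (m + 1) ≫ f⟦(1 : ℤ)⟧') ≫ (Y.q m)⟦(1 : ℤ)⟧' = 0 := by
      rw [Category.assoc, ← Functor.map_comp]
      have h2 : f ≫ Y.q m = X.q m ≫ X.grL Y k m f := (X.comp_grL Y k m f).symm
      rw [h2, hf.1, comp_zero, Functor.map_zero, comp_zero]
    obtain ⟨g, hg⟩ := Y.exact m (X.δ (m + 1) ≫ f⟦(1 : ℤ)⟧') h1
    rw [hg, X.van Y h3 m m le_rfl g]
    exact zero_comp

/-- Left composition with `δ` after the shift, as a linear map. -/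
noncomputable def Tower.alpha [Functor.Linear k (shiftFunctor C (1 : ℤ))] (n : ℕ) : (X.F n ⟶ Y.F n) →ₗ[k] (X.P n ⟶ (Y.F n)⟦(1 : ℤ)⟧) :=
  (Linear.leftComp k ((Y.F n)⟦(1 : ℤ)⟧) (X.δ n)) ∘ₗ ((shiftFunctor C (1 : ℤ)).mapLinearMap k)

/-- Right composition with `δ`. -/
noncomputable def Tower.beta (n : ℕ) : (X.P n ⟶ Y.P n) →ₗ[k] (X.P n ⟶ (Y.F n)⟦(1 : ℤ)⟧) :=
  Linear.rightComp k (X.P n) (Y.δ n)

/-- Composition with `q`. -/
noncomputable def Tower.eps (n : ℕ) :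
    (X.P (n + 1) ⟶ (Y.F (n + 1))⟦(1 : ℤ)⟧) →ₗ[k] (X.P (n + 1) ⟶ (Y.P n)⟦(1 : ℤ)⟧) :=
  Linear.rightComp k (X.P (n + 1)) ((Y.q n)⟦(1 : ℤ)⟧')

theorem Tower.eps_injective (h3 : ∀ i j, j + 2 ≤ i → ∀ f : X.P i ⟶ (Y.P j)⟦(1 : ℤ)⟧, f = 0)
    (n : ℕ) : Function.Injective (X.eps Y k n) := by
  refine (injective_iff_map_eq_zero (X.eps Y k n)).mpr fun f hf => ?_
  obtain ⟨g, hg⟩ := Y.exact n f hf
  rw [hg, X.van Y h3 n n le_rfl g]
  exact zero_comp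

/-- The rank estimate. -/
theorem Tower.main [Functor.Linear k (shiftFunctor C (1 : ℤ))] (h3 : ∀ i j, j + 2 ≤ i → ∀ f : X.P i ⟶ (Y.P j)⟦(1 : ℤ)⟧, f = 0)
    (hH : ∀ i, FiniteDimensional k (X.P i ⟶ Y.P i))
    (hE : ∀ i, FiniteDimensional k (X.P (i + 1) ⟶ (Y.P i)⟦(1 : ℤ)⟧)) (n : ℕ) :
    ∃ (W : Type v) (_ : AddCommGroup W) (_ : Module k W) (_ : FiniteDimensional k W)
      (Ψ : (X.F n ⟶ Y.F n) →ₗ[k] W), (∀ f, Ψ f = 0 ↔ X.Nil Y k n f) ∧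
      ∑ i ∈ range n, finrank k (X.P i ⟶ Y.P i) ≤ finrank k (LinearMap.range Ψ) +
        ∑ i ∈ range (n - 1), finrank k (X.P (i + 1) ⟶ (Y.P i)⟦(1 : ℤ)⟧) := by
  induction n with
  | zero =>
    refine ⟨PUnit, inferInstance, inferInstance, inferInstance, 0, fun f => ?_, by simp⟩
    exact ⟨fun _ => trivial, fun _ => rfl⟩
  | succ n ih =>
    obtain ⟨W, _, _, _, Ψ, hΨ, hsum⟩ := ih
    have := hH n
    have hEfin : FiniteDimensional k (X.P n ⟶ (Y.F n)⟦(1 : ℤ)⟧) ∧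
        finrank k (X.P n ⟶ (Y.F n)⟦(1 : ℤ)⟧) +
          ∑ i ∈ range (n - 1), finrank k (X.P (i + 1) ⟶ (Y.P i)⟦(1 : ℤ)⟧) ≤
          ∑ i ∈ range n, finrank k (X.P (i + 1) ⟶ (Y.P i)⟦(1 : ℤ)⟧) := by
      cases n with
      | zero =>
        have h1 : IsZero ((Y.F 0)⟦(1 : ℤ)⟧) := (shiftFunctor C (1 : ℤ)).map_isZero Y.zero
        have h2 : Subsingleton (X.P 0 ⟶ (Y.F 0)⟦(1 : ℤ)⟧) :=
          ⟨fun f g => h1.eq_of_tgt f g⟩
        refine ⟨inferInstance, ?_⟩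
        rw [finrank_zero_of_subsingleton]
        simp
      | succ m =>
        have h1 := X.eps_injective Y k h3 m
        have := hE m
        refine ⟨FiniteDimensional.of_injective (X.eps Y k m) h1, ?_⟩
        have h2 := LinearMap.finrank_le_finrank_of_injective h1
        rw [Finset.sum_range_succ]
        have h3 : m + 1 - 1 = m := by omega
        rw [h3]
        omega
    obtain ⟨_, hEsum⟩ := hEfin
    refine ⟨W × (X.P n ⟶ Y.P n), inferInstance, inferInstance, inferInstance,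
      (Ψ ∘ₗ X.resL Y k n).prod (X.grL Y k n), fun f => ?_, ?_⟩
    · constructor
      · intro h
        have h1 : Ψ (X.resL Y k n f) = 0 := congrArg Prod.fst h
        have h2 : X.grL Y k n f = 0 := congrArg Prod.snd h
        exact ⟨h2, (hΨ _).mp h1⟩
      · rintro ⟨h1, h2⟩
        refine Prod.ext ?_ ?_
        · exact (hΨ _).mpr h2
        · exact h1
    · have h1 := step_rank (H := (X.P n ⟶ Y.P n)) (E := (X.P n ⟶ (Y.F n)⟦(1 : ℤ)⟧))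
        Ψ (X.resL Y k n) (X.grL Y k n) (X.alpha Y k n)
        (X.beta Y k n) (fun f' p hfp => X.exists_lift Y k n f' p hfp)
        (fun f' hf' => X.obstr Y k h3 n f' ((hΨ _).mp hf'))
      rw [Finset.sum_range_succ]
      have h4 : n + 1 - 1 = n := by omega
      rw [h4]
      have h5 : ∑ i ∈ range n, finrank k (X.P i ⟶ Y.P i) + finrank k (X.P n ⟶ Y.P n) ≤
          (finrank k (LinearMap.range Ψ) + ∑ i ∈ range (n - 1),
            finrank k (X.P (i + 1) ⟶ (Y.P i)⟦(1 : ℤ)⟧)) + finrank k (X.P n ⟶ Y.P n) := by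
        omega
      refine h5.trans ?_
      omega

/-- If nonzero morphisms have nonzero graded pieces, then this holds on the lower levels. -/
theorem Tower.nil_down (h3 : ∀ i j, j + 2 ≤ i → ∀ f : X.P i ⟶ (Y.P j)⟦(1 : ℤ)⟧, f = 0) (n : ℕ)
    (h : ∀ f, X.Nil Y k (n + 1) f → f = 0) (f : X.F n ⟶ Y.F n) (hf : X.Nil Y k n f) : f = 0 := by
  obtain ⟨g, hg1, hg2⟩ := X.exists_lift Y k n f 0 (by
    rw [zero_comp]
    exact X.obstr Y k h3 n f hf)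
  have h1 : g = 0 := h g ⟨hg2, by rw [hg1]; exact hf⟩
  rw [← hg1, h1, map_zero]

theorem Tower.nil_down' (h3 : ∀ i j, j + 2 ≤ i → ∀ f : X.P i ⟶ (Y.P j)⟦(1 : ℤ)⟧, f = 0)
    {m n : ℕ} (hmn : m ≤ n) (h : ∀ f, X.Nil Y k n f → f = 0) (f : X.F m ⟶ Y.F m)
    (hf : X.Nil Y k m f) : f = 0 := by
  induction n, hmn using Nat.le_induction with
  | base => exact h f hf
  | succ n hmn ih => exact ih (X.nil_down Y k h3 n h)

/-- If nonzero morphisms have nonzero graded pieces, then there are no morphisms between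
neighbouring pieces. -/
theorem Tower.e1_zero (h3 : ∀ i j, j + 2 ≤ i → ∀ f : X.P i ⟶ (Y.P j)⟦(1 : ℤ)⟧, f = 0) (n : ℕ)
    (h : ∀ f, X.Nil Y k n f → f = 0) (m : ℕ) (hm : m + 1 < n) (g : X.P (m + 1) ⟶ Y.P m) :
    g = 0 := by
  -- lift `g` to `X.P (m+1) ⟶ Y.F (m+1)`
  have h1 : g ≫ Y.δ m = 0 := X.van Y h3 m m le_rfl _
  obtain ⟨w, hw⟩ : ∃ w : X.P (m + 1) ⟶ Y.F (m + 1), g = w ≫ Y.q m :=
    Triangle.coyoneda_exact₃ (Y.tri m) (Y.dist m) g h1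
  have hinj : ∀ f, X.resL Y k (m + 1) f = 0 → X.grL Y k (m + 1) f = 0 → f = 0 := by
    intro f hf1 hf2
    refine X.nil_down' Y k h3 (m := m + 1 + 1) (by omega) h f ⟨hf2, ?_⟩
    rw [hf1]
    exact X.nil_zero Y k (m + 1)
  obtain ⟨z, hz⟩ := X.factor Y k (m + 1) hinj w
  have h2 : z ≫ Y.q m = 0 := X.orth_c Y m (z ≫ Y.q m)
  rw [hw, hz, Category.assoc, h2, comp_zero]

end Fdim.Tr
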